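import Pool.Agent.H304Z.NH.Spec

set_option linter.unusedSectionVars false

namespace Pool.Agent.H726Z.NH

open Matrix Finset Pool.Agent.H304Z.NH
open scoped MatrixOrder ComplexOrder

variable {n : Type} [Fintype n] [DecidableEq n]

/-- conjugated real diagonal matrix -/
noncomputable def D (V : Mat n) (f : n → ℝ) : Mat n := V * diagonal (fun i => (f i : ℂ)) * Vᴴ

theorem D_mul {V : Mat n} (hV : IsU V) (f g : n → ℝ) : D V f * D V g = D V (fun i => f i * g i) := by
  unfold D
  calc V * diagonal (fun i => (f i : ℂ)) * Vᴴ * (V * diagonal (fun i => (g i : ℂ)) * Vᴴ)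
      = V * (diagonal (fun i => (f i : ℂ)) * (Vᴴ * V) * diagonal (fun i => (g i : ℂ))) * Vᴴ := by
        simp only [Matrix.mul_assoc]
    _ = _ := by rw [hV.1, Matrix.mul_one, diagonal_mul_diagonal]; simp

theorem D_star (V : Mat n) (f : n → ℝ) : (D V f)ᴴ = D V f := by
  unfold D
  rw [conjTranspose_mul, conjTranspose_mul, conjTranspose_conjTranspose, diagonal_conjTranspose,
    Matrix.mul_assoc]
  congr 3
  funext i
  simp

theorem D_sub (V : Mat n) (f g : n → ℝ) : D V f - D V g = D V (fun i => f i - g i) := by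
  unfold D
  rw [← Matrix.sub_mul, ← Matrix.mul_sub, diagonal_sub]
  simp

theorem D_smul (V : Mat n) (r : ℝ) (f : n → ℝ) : r • D V f = D V (fun i => r * f i) := by
  unfold D
  rw [← Matrix.smul_mul, ← Matrix.mul_smul, ← diagonal_smul]
  congr 3
  funext i
  simp

theorem D_one {V : Mat n} (hV : IsU V) : D V (fun _ => 1) = 1 := by
  unfold D
  simp [hV.2]

theorem D_nonneg (V : Mat n) {f : n → ℝ} (hf : ∀ i, 0 ≤ f i) : 0 ≤ D V f := by
  rw [Matrix.nonneg_iff_posSemidef]
  unfold D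
  refine PosSemidef.mul_mul_conjTranspose_same ?_ V
  rw [posSemidef_diagonal_iff]
  intro i
  exact_mod_cast hf i

theorem D_le (V : Mat n) {f g : n → ℝ} (h : ∀ i, f i ≤ g i) : D V f ≤ D V g := by
  rw [← sub_nonneg, D_sub]
  exact D_nonneg V fun i => sub_nonneg.2 (h i)

theorem tr_D {V : Mat n} (hV : IsU V) (f : n → ℝ) : tr (D V f) = ∑ i, f i := by
  unfold D tr
  rw [trace_mul_comm, ← Matrix.mul_assoc, hV.1, Matrix.one_mul, trace_diagonal]
  simp

theorem nsq_conj {V : Mat n} (hV : IsU V) (y : Mat n) : nsq (V * y * Vᴴ) = nsq y := by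
  unfold nsq tr
  have : (V * y * Vᴴ)ᴴ * (V * y * Vᴴ) = V * (yᴴ * y * Vᴴ) := by
    rw [conjTranspose_mul, conjTranspose_mul, conjTranspose_conjTranspose]
    calc V * (yᴴ * Vᴴ) * (V * y * Vᴴ) = V * (yᴴ * (Vᴴ * V) * y * Vᴴ) := by
          simp only [Matrix.mul_assoc]
      _ = _ := by rw [hV.1, Matrix.mul_one]
  rw [this, trace_mul_comm, Matrix.mul_assoc, hV.1, Matrix.mul_one]

theorem nsq_eq (y : Mat n) : nsq y = ∑ k, ∑ l, ‖y k l‖ ^ 2 := by
  unfold nsq tr
  rw [Finset.sum_comm]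
  simp only [trace, diag_apply, Matrix.mul_apply, conjTranspose_apply, Complex.re_sum]
  refine Finset.sum_congr rfl fun l _ => Finset.sum_congr rfl fun k _ => ?_
  rw [Complex.star_def, Complex.conj_mul']
  norm_cast

theorem nsq_cm {V : Mat n} (hV : IsU V) (u : Mat n) (f : n → ℝ) :
    nsq (cm u (D V f)) = ∑ k, ∑ l, ‖(Vᴴ * u * V) k l‖ ^ 2 * (f l - f k) ^ 2 := by
  have : cm u (D V f) = V * ((Vᴴ * u * V) * diagonal (fun i => (f i : ℂ)) -
      diagonal (fun i => (f i : ℂ)) * (Vᴴ * u * V)) * Vᴴ := by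
    unfold cm D
    rw [Matrix.mul_sub, Matrix.sub_mul]
    congr 1
    · calc u * (V * diagonal (fun i => (f i : ℂ)) * Vᴴ)
          = (V * Vᴴ) * u * (V * diagonal (fun i => (f i : ℂ)) * Vᴴ) := by
            rw [hV.2, Matrix.one_mul]
        _ = _ := by simp only [Matrix.mul_assoc]
    · calc V * diagonal (fun i => (f i : ℂ)) * Vᴴ * u
          = V * diagonal (fun i => (f i : ℂ)) * Vᴴ * u * (V * Vᴴ) := by
            rw [hV.2, Matrix.mul_one]
        _ = _ := by simp only [Matrix.mul_assoc]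
  rw [this, nsq_conj hV, nsq_eq]
  refine Finset.sum_congr rfl fun k _ => Finset.sum_congr rfl fun l _ => ?_
  rw [Matrix.sub_apply, mul_diagonal, diagonal_mul, mul_comm (f k : ℂ), ← mul_sub, norm_mul,
    mul_pow, ← Complex.ofReal_sub, Complex.norm_real, Real.norm_eq_abs, sq_abs]

theorem row_sum {V u : Mat n} (hV : IsU V) (hu : IsU u) (k : n) :
    ∑ l, ‖(Vᴴ * u * V) k l‖ ^ 2 = 1 := by
  have h : (Vᴴ * u * V) * (Vᴴ * u * V)ᴴ = 1 := by
    rw [conjTranspose_mul, conjTranspose_mul, conjTranspose_conjTranspose]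
    calc Vᴴ * u * V * (Vᴴ * (uᴴ * V)) = Vᴴ * (u * (V * Vᴴ) * uᴴ) * V := by
          simp only [Matrix.mul_assoc]
      _ = 1 := by rw [hV.2, Matrix.mul_one, hu.2, Matrix.mul_one, hV.1]
  have h2 := congrArg Complex.re (congrFun (congrFun h k) k)
  rw [Matrix.mul_apply, Complex.re_sum, one_apply_eq, Complex.one_re] at h2
  rw [← h2]
  refine Finset.sum_congr rfl fun l _ => ?_
  rw [conjTranspose_apply, Complex.star_def, Complex.mul_conj']
  norm_cast

theorem ind_le (a b t h : ℝ) (hh : 0 < h) :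
    ((if t ≤ b then (1 : ℝ) else 0) - (if t ≤ a then 1 else 0)) ^ 2 ≤
      (2 / h) ^ 2 * (b - a) ^ 2 + if |a - t| < h / 2 then 1 else 0 := by
  have h0 : 0 ≤ (2 / h) ^ 2 * (b - a) ^ 2 := by positivity
  have key : h / 2 ≤ |b - a| → 1 ≤ (2 / h) ^ 2 * (b - a) ^ 2 := by
    intro h1
    rw [← mul_pow, ← sq_abs, abs_mul, abs_of_pos (by positivity : 0 < 2 / h)]
    have : 1 ≤ 2 / h * |b - a| := by
      rw [div_mul_eq_mul_div, le_div_iff₀ hh]; linarith
    nlinarith
  split_ifs with h1 h2 h3 h3 h2 h3 h3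
  · simp; linarith
  · simp; linarith
  · simp; linarith
  · have : h / 2 ≤ |b - a| := by
      rw [not_lt, abs_of_neg (by linarith)] at h3
      rw [abs_of_pos (by linarith)]; linarith
    simpa using key this
  · simp; linarith
  · have : h / 2 ≤ |b - a| := by
      rw [not_lt, abs_of_nonneg (by linarith)] at h3
      rw [abs_of_neg (by linarith)]; linarith
    simpa using key this
  · simp; linarith
  · simp; linarith

theorem count_le (a θ₀ h : ℝ) (ha : 0 ≤ a) (h0 : 0 < θ₀) (hh : 0 < h) (N : ℕ) :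
    ∑ r ∈ range N, (if |a - (θ₀ + (r + 1 / 2) * h)| < h / 2 then (1 : ℝ) else 0) ≤ a / θ₀ := by
  by_cases hex : ∃ r ∈ range N, |a - (θ₀ + (r + 1 / 2) * h)| < h / 2
  · obtain ⟨r, hr, h1⟩ := hex
    rw [Finset.sum_eq_single_of_mem r hr, if_pos h1]
    · rw [le_div_iff₀ h0]
      have := (abs_lt.1 h1).1
      have : (0 : ℝ) ≤ r * h := by positivity
      nlinarith
    · intro s _ hs
      rw [if_neg]
      intro h2
      obtain ⟨h3, h4⟩ := abs_lt.1 h1
      obtain ⟨h5, h6⟩ := abs_lt.1 h2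
      rcases lt_or_gt_of_ne hs with h7 | h7
      · have : (s : ℝ) + 1 ≤ r := by exact_mod_cast h7
        nlinarith
      · have : (r : ℝ) + 1 ≤ s := by exact_mod_cast h7
        nlinarith
  · push Not at hex
    rw [Finset.sum_eq_zero fun r hr => if_neg (not_lt.2 (hex r hr))]
    positivity

theorem th : S_TH := by
  intro n _ _ κ _ u hu x hx θ₀ θ₁ h0 h01 N hN
  obtain ⟨V, lam, hV, hl0, hxD⟩ : ∃ (V : Mat n) (lam : n → ℝ), IsU V ∧ (∀ i, 0 ≤ lam i) ∧
      x = D V lam := by
    have hps : x.PosSemidef := Matrix.nonneg_iff_posSemidef.1 hx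
    have hH : x.IsHermitian := hps.isHermitian
    refine ⟨hH.eigenvectorUnitary, hH.eigenvalues, ⟨by
      simpa [star_eq_conjTranspose] using (Unitary.coe_star_mul_self hH.eigenvectorUnitary), by
      simpa [star_eq_conjTranspose] using (Unitary.coe_mul_star_self hH.eigenvectorUnitary)⟩,
      fun i => hps.eigenvalues_nonneg i, ?_⟩
    have := hH.spectral_theorem
    rw [Unitary.conjStarAlgAut_apply] at this
    exact this
  set h : ℝ := (θ₁ - θ₀) / N with hh
  have hNr : (0 : ℝ) < N := by exact_mod_cast hN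
  have hh0 : 0 < h := div_pos (by linarith) hNr
  have hNh : N * h = θ₁ - θ₀ := by rw [hh]; field_simp
  let cnt : ℕ → ℝ := fun r => ∑ i, if |lam i - (θ₀ + (r + 1 / 2) * h)| < h / 2 then (1 : ℝ) else 0
  have hsum : ∑ r ∈ range N, cnt r ≤ ∑ _r ∈ range N, tr x / (θ₀ * N) := by
    rw [Finset.sum_const, Finset.card_range, nsmul_eq_mul]
    simp only [cnt]
    rw [Finset.sum_comm]
    refine (Finset.sum_le_sum fun i _ => count_le (lam i) θ₀ h (hl0 i) h0 hh0 N).trans ?_
    rw [← Finset.sum_div, hxD, tr_D hV]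
    apply le_of_eq
    field_simp
  obtain ⟨r, hr, hcnt⟩ := Finset.exists_le_of_sum_le (by simpa using hN.ne') hsum
  have hrN : (r : ℝ) + 1 ≤ N := by exact_mod_cast Finset.mem_range.1 hr
  set t : ℝ := θ₀ + (r + 1 / 2) * h with ht
  have ht0 : θ₀ ≤ t := by
    have : (0 : ℝ) ≤ (r + 1 / 2) * h := by positivity
    linarith
  have ht1 : t ≤ θ₁ := by nlinarith
  let f : n → ℝ := fun i => if t ≤ lam i then 1 else 0
  refine ⟨D V f, ⟨D_star V f, ?_⟩, ?_, ?_, ?_, ?_⟩
  · rw [D_mul hV]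
    congr 1
    funext i
    simp only [f]
    split_ifs <;> simp
  · rw [hxD, D_mul hV, D_mul hV]
    congr 1
    funext i
    ring
  · rw [hxD, D_smul]
    refine D_le V fun i => ?_
    simp only [f]
    split_ifs with h1
    · linarith
    · simpa using hl0 i
  · rw [hxD, ← D_one hV, D_sub, D_mul hV, D_mul hV, D_smul]
    refine D_le V fun i => ?_
    simp only [f]
    split_ifs with h1
    · simp
    · simp only [sub_zero, one_mul, mul_one]
      linarith
  · have key : ∀ k, nsq (cm (u k) (D V f)) ≤ (2 / h) ^ 2 * nsq (cm (u k) x) + cnt r := by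
      intro k
      rw [hxD, nsq_cm hV, nsq_cm hV, Finset.mul_sum]
      simp only [cnt]
      rw [← Finset.sum_add_distrib]
      refine Finset.sum_le_sum fun a _ => ?_
      have h3 : (if |lam a - t| < h / 2 then (1 : ℝ) else 0) =
          ∑ b, ‖(Vᴴ * u k * V) a b‖ ^ 2 * (if |lam a - t| < h / 2 then (1 : ℝ) else 0) := by
        rw [← Finset.sum_mul, row_sum hV (hu k) a, one_mul]
      rw [Finset.mul_sum, h3, ← Finset.sum_add_distrib]
      refine Finset.sum_le_sum fun b _ => ?_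
      have := mul_le_mul_of_nonneg_left (ind_le (lam a) (lam b) t h hh0)
        (sq_nonneg ‖(Vᴴ * u k * V) a b‖)
      simp only [f]
      linarith
    refine (Finset.sum_le_sum fun k _ => key k).trans ?_
    rw [Finset.sum_add_distrib, ← Finset.mul_sum, Finset.sum_const, Finset.card_univ, nsmul_eq_mul]
    have h2 : 2 / h = 2 * N / (θ₁ - θ₀) := by
      rw [hh]; field_simp
    rw [h2, mul_div_assoc (Fintype.card κ : ℝ)]
    exact add_le_add le_rfl (mul_le_mul_of_nonneg_left hcnt (Nat.cast_nonneg _))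

end Pool.Agent.H726Z.NH
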